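import Pool.Agent.H47.UG.Lat

/-!
# Sections of `O(s)` on the hypersurface
-/

set_option autoImplicit false

open MvPolynomial

namespace Pool.Agent.H29.UG

open Pool.Agent.H47.UG

section poly

variable {K : Type} [Field K] {n : ℕ}

/-- Components of multiples of a form are multiples of the form. -/
theorem dvd_comp {d : ℕ} {F P : HP K n} (hF : F.IsHomogeneous d) (h : F ∣ P) (e : ℕ) :
    F ∣ homogeneousComponent e P := by
  classical
  let _ := MvPolynomial.gradedAlgebra (σ := Fin (n + 2)) (R := K)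
  have hI : (Ideal.span {F}).IsHomogeneous (homogeneousSubmodule (Fin (n + 2)) K) := by
    apply Ideal.homogeneous_span
    intro x hx
    rw [Set.mem_singleton_iff] at hx
    subst hx
    exact ⟨d, hF⟩
  have := homogeneousComponent_mem_of_mem hI (Ideal.mem_span_singleton.2 h) e
  exact Ideal.mem_span_singleton.1 this

/-- The component of degree `N + e` of `G * P`, `G` a form of degree `N`. -/
theorem comp_mul {N : ℕ} {G : HP K n} (hG : G.IsHomogeneous N) (P : HP K n) (e : ℕ) :
    homogeneousComponent (N + e) (G * P) = G * homogeneousComponent e P := by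
  classical
  conv_lhs => rw [← sum_homogeneousComponent P, Finset.mul_sum, map_sum]
  have h1 : ∀ i ∈ Finset.range (P.totalDegree + 1),
      homogeneousComponent (N + e) (G * homogeneousComponent i P) =
        if i = e then G * homogeneousComponent e P else 0 := by
    intro i _
    have h2 : (G * homogeneousComponent i P).IsHomogeneous (N + i) :=
      hG.mul (homogeneousComponent_isHomogeneous i P)
    rw [homogeneousComponent_of_mem ((mem_homogeneousSubmodule _ _).2 h2)]
    by_cases h : i = e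
    · subst h
      simp
    · rw [if_neg h, if_neg]
      omega
  rw [Finset.sum_congr rfl h1, Finset.sum_ite_eq']
  split_ifs with h
  · rfl
  · rw [Finset.mem_range, not_lt] at h
    rw [homogeneousComponent_eq_zero _ _ (by omega), mul_zero]

theorem comp_mul_lt {N : ℕ} {G : HP K n} (hG : G.IsHomogeneous N) (P : HP K n) {e : ℕ} (he : e < N) :
    homogeneousComponent e (G * P) = 0 := by
  classical
  conv_lhs => rw [← sum_homogeneousComponent P, Finset.mul_sum, map_sum]
  refine Finset.sum_eq_zero fun i _ => ?_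
  have h2 : (G * homogeneousComponent i P).IsHomogeneous (N + i) :=
    hG.mul (homogeneousComponent_isHomogeneous i P)
  rw [homogeneousComponent_of_mem ((mem_homogeneousSubmodule _ _).2 h2), if_neg]
  omega

/-- Restriction to `x₀ = 0`. -/
noncomputable def res0 : HP K n →ₐ[K] MvPolynomial (Fin (n + 1)) K :=
  aeval (Fin.cons 0 X : Fin (n + 2) → MvPolynomial (Fin (n + 1)) K)

theorem res0_zero : res0 (X 0 : HP K n) = 0 := by simp [res0]

theorem res0_succ (i : Fin (n + 1)) : res0 (X i.succ : HP K n) = X i := by simp [res0]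

/-- The kernel of the restriction. -/
theorem res0_ker {P : HP K n} (h : res0 P = 0) : (X 0 : HP K n) ∣ P := by
  have h1 : ((Ideal.Quotient.mkₐ K (Ideal.span {(X 0 : HP K n)})).comp
      ((rename Fin.succ).comp (res0 (K := K) (n := n)))) = Ideal.Quotient.mkₐ K (Ideal.span {(X 0 : HP K n)}) := by
    ext i
    refine Fin.cases ?_ (fun j => ?_) i
    · simp only [AlgHom.coe_comp, Function.comp_apply, res0_zero, map_zero]
      symm
      exact Ideal.Quotient.eq_zero_iff_mem.2 (Ideal.mem_span_singleton_self _)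
    · simp only [AlgHom.coe_comp, Function.comp_apply, res0_succ, rename_X]
  have h2 := congrArg (fun f => f P) h1
  simp only [AlgHom.coe_comp, Function.comp_apply, h, map_zero] at h2
  exact Ideal.mem_span_singleton.1 (Ideal.Quotient.eq_zero_iff_mem.1 h2.symm)

theorem coeff_res0 (P : HP K n) (m : Fin (n + 1) →₀ ℕ) : coeff m (res0 P) = coeff (m.cons 0) P := by
  rw [← finSuccEquiv_coeff_coeff]
  congr 1
  have h1 : (res0 (K := K) (n := n)) =
      ((Polynomial.aeval (0 : MvPolynomial (Fin (n + 1)) K)).restrictScalars K).comp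
        (finSuccEquiv K (n + 1)).toAlgHom := by
    ext i
    refine Fin.cases ?_ (fun j => ?_) i
    · simp [res0_zero, finSuccEquiv_X_zero]
    · simp [res0_succ, finSuccEquiv_X_succ]
  rw [h1, Polynomial.coeff_zero_eq_aeval_zero]
  simp

/-- The division step: `X₀` and `X₁` form a regular sequence modulo a nice form. -/
theorem div_step {d : ℕ} {F : HP K n} (hF : Nice d F) (hn : 1 ≤ n) (M : ℕ) :
    ∀ (N : ℕ) (Q Q' : HP K n), F ∣ X 1 ^ M * Q - X 0 ^ N * Q' → ∃ P : HP K n, F ∣ Q - X 0 ^ N * P := by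
  obtain ⟨m, rfl⟩ : ∃ m, n = m + 1 := ⟨n - 1, by omega⟩
  have hF0 : Prime F := UniqueFactorizationMonoid.irreducible_iff_prime.1 hF.irr
  have hR : Prime (res0 F) := UniqueFactorizationMonoid.irreducible_iff_prime.1 hF.irr0
  have hndvd : ¬ res0 F ∣ (X 0 : MvPolynomial (Fin (m + 1 + 1)) K) := by
    intro h
    have h1 : Associated (res0 F) (X 0 : MvPolynomial (Fin (m + 1 + 1)) K) :=
      hR.irreducible.associated_of_dvd (X_prime (i := (0 : Fin (m + 1 + 1)))).irreducible h
    obtain ⟨u, hu⟩ := h1.symm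
    obtain ⟨c, hc, hcu⟩ := (MvPolynomial.isUnit_iff_eq_C_of_isReduced (P := (u : MvPolynomial (Fin (m + 1 + 1)) K))).1 u.isUnit
    have h2 := hF.diag (Fin.succ 1)
    have h3 : coeff (Finsupp.single (Fin.succ 1) d) F = coeff (Finsupp.single 1 d) (res0 F) := by
      rw [coeff_res0]
      congr 1
      ext i
      refine Fin.cases ?_ (fun j => ?_) i
      · rw [Finsupp.cons_zero, Finsupp.single_apply, if_neg (Fin.succ_ne_zero 1)]
      · rw [Finsupp.cons_succ, Finsupp.single_apply, Finsupp.single_apply]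
        simp only [Fin.succ_inj]
    rw [h3, ← hu, hcu, mul_comm, coeff_C_mul, coeff_X, if_neg, mul_zero] at h2
    · exact h2 rfl
    · intro h4
      have h5 := DFunLike.congr_fun h4 0
      simp at h5
  intro N
  induction N with
  | zero => exact fun Q Q' _ => ⟨Q, by simp⟩
  | succ N ih =>
    intro Q Q' h
    obtain ⟨G, hG⟩ := h
    have h1 : res0 (X 1 : HP K (m + 1)) = X 0 := res0_succ 0
    have h2 : X 0 ^ M * res0 Q = res0 F * res0 G := by
      have := congrArg res0 hG
      rw [map_sub, map_mul, map_mul, map_mul, map_pow, map_pow, res0_zero, h1, zero_pow (Nat.succ_ne_zero N),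
        zero_mul, sub_zero] at this
      exact this
    have h3 : res0 F ∣ res0 Q := by
      have h4 : res0 F ∣ X 0 ^ M * res0 Q := ⟨_, h2⟩
      rcases hR.dvd_or_dvd h4 with h5 | h5
      · exact absurd (hR.dvd_of_dvd_pow h5) hndvd
      · exact h5
    obtain ⟨g, hg⟩ := h3
    have h4 : res0 (Q - F * rename Fin.succ g) = 0 := by
      have h5 : res0 (rename Fin.succ g : HP K (m + 1)) = g := by
        have : (res0 (K := K) (n := m + 1)).comp (rename Fin.succ) = AlgHom.id K _ := by
          ext i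
          simp [res0_succ]
        exact congrArg (fun f => f g) this
      rw [map_sub, map_mul, h5, hg, sub_self]
    obtain ⟨Q1, hQ1⟩ := res0_ker h4
    have h6 : F ∣ X 0 * (X 1 ^ M * Q1 - X 0 ^ N * Q') := by
      refine ⟨G - X 1 ^ M * rename Fin.succ g, ?_⟩
      have h7 : Q = F * rename Fin.succ g + X 0 * Q1 := by rw [← hQ1]; ring
      rw [mul_sub F, ← hG, h7]
      ring
    have h8 : ¬ F ∣ (X 0 : HP K (m + 1)) := by
      intro h9
      have h10 := congrArg res0 h9.choose_spec
      rw [map_mul, res0_zero] at h10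
      rcases mul_eq_zero.1 h10.symm with h11 | h11
      · exact hR.ne_zero h11
      · have h13 := (X_prime (σ := Fin (m + 1 + 2)) (R := K) (i := 0)).irreducible
        have h14 := h13.isUnit_or_isUnit h9.choose_spec
        rcases h14 with h15 | h15
        · exact hF0.not_isUnit h15
        · have h16 := h15.map (res0 (K := K) (n := m + 1))
          rw [h11] at h16
          exact not_isUnit_zero h16
    rcases hF0.dvd_or_dvd h6 with h7 | h7
    · exact absurd h7 h8
    · obtain ⟨P, hP⟩ := ih Q1 Q' h7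
      refine ⟨P, ?_⟩
      have h9 : Q - X 0 ^ (N + 1) * P = F * rename Fin.succ g + X 0 * (Q1 - X 0 ^ N * P) := by
        have h7 : Q = F * rename Fin.succ g + X 0 * Q1 := by rw [← hQ1]; ring
        rw [h7]
        ring
      rw [h9]
      exact dvd_add (dvd_mul_right _ _) (Dvd.dvd.mul_left hP _)

/-- The division with control of the degrees. -/
theorem div_hom {d : ℕ} {F : HP K n} (hF : Nice d F) (hn : 1 ≤ n) {M N e : ℕ} {Q Q' : HP K n}
    (hQ : Q.IsHomogeneous e) (h : F ∣ X 1 ^ M * Q - X 0 ^ N * Q') :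
    (∃ P : HP K n, N ≤ e ∧ P.IsHomogeneous (e - N) ∧ F ∣ Q - X 0 ^ N * P) ∨ F ∣ Q := by
  obtain ⟨P, hP⟩ := div_step hF hn M N Q Q' h
  have h1 := dvd_comp hF.hom hP e
  have h2 : homogeneousComponent e Q = Q := homogeneousComponent_eq_self hQ
  have hX : ((X 0 : HP K n) ^ N).IsHomogeneous N := by
    simpa using (isHomogeneous_X K (0 : Fin (n + 2))).pow N
  by_cases hN : N ≤ e
  · left
    refine ⟨homogeneousComponent (e - N) P, hN, homogeneousComponent_isHomogeneous _ _, ?_⟩
    rw [map_sub, h2] at h1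
    have h3 := comp_mul hX P (e - N)
    rw [Nat.add_sub_cancel' hN] at h3
    rwa [h3] at h1
  · right
    rw [map_sub, h2, comp_mul_lt hX P (by omega), sub_zero] at h1
    exact h1

end poly

section FF

variable {K : Type} [Field K] {n d : ℕ} {F : HP K n} (T : FF d F)

theorem aeval_div {N : ℕ} {P : HP K n} (hP : P.IsHomogeneous N) {c : T.L} (hc : c ≠ 0) :
    aeval (fun l => T.x l / c) P * c ^ N = aeval T.x P := by
  classical
  rw [aeval_def, aeval_def, eval₂_eq, eval₂_eq, Finset.sum_mul]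
  refine Finset.sum_congr rfl fun m hm => ?_
  have h1 : m.degree = N := by
    rw [Finsupp.degree_eq_weight_one]
    exact hP (mem_support_iff.1 hm)
  have h2 : (∏ i ∈ m.support, (T.x i / c) ^ m i) * c ^ N = ∏ i ∈ m.support, T.x i ^ m i := by
    have h3 : c ^ N = ∏ i ∈ m.support, c ^ m i := by
      rw [Finset.prod_pow_eq_pow_sum, ← h1]
      rfl
    rw [h3, ← Finset.prod_mul_distrib]
    refine Finset.prod_congr rfl fun i _ => ?_
    rw [← mul_pow, div_mul_cancel₀ _ hc]
  rw [mul_assoc, h2]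

/-- Normal form of the elements of `A i`. -/
theorem mem_A_iff (i : Fin (n + 2)) (a : T.L) :
    a ∈ T.A i ↔ ∃ (N : ℕ) (P : HP K n), P.IsHomogeneous N ∧ a * T.x i ^ N = aeval T.x P := by
  have hx := T.x_ne i
  constructor
  · intro ha
    unfold FF.A at ha
    refine Algebra.adjoin_induction ?_ ?_ ?_ ?_ ha
    · rintro _ ⟨l, rfl⟩
      exact ⟨1, X l, isHomogeneous_X _ _, by rw [pow_one, aeval_X, div_mul_cancel₀ _ hx]⟩
    · intro r
      exact ⟨0, C r, isHomogeneous_C _ _, by rw [pow_zero, mul_one, aeval_C]⟩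
    · rintro a b _ _ ⟨N, P, hP, h1⟩ ⟨N', P', hP', h2⟩
      refine ⟨N + N', P * X i ^ N' + X i ^ N * P', ?_, ?_⟩
      · refine IsHomogeneous.add (hP.mul ?_) (IsHomogeneous.mul ?_ hP')
        · simpa using (isHomogeneous_X K i).pow N'
        · simpa using (isHomogeneous_X K i).pow N
      · rw [map_add, map_mul, map_mul, map_pow, map_pow, aeval_X, ← h1, ← h2]
        ring
    · rintro a b _ _ ⟨N, P, hP, h1⟩ ⟨N', P', hP', h2⟩
      refine ⟨N + N', P * P', hP.mul hP', ?_⟩
      rw [map_mul, ← h1, ← h2]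
      ring
  · rintro ⟨N, P, hP, h1⟩
    have h2 := aeval_div T hP hx
    have h3 : a = aeval (fun l => T.x l / T.x i) P := by
      rw [← h1] at h2
      exact (mul_right_cancel₀ (pow_ne_zero N hx) h2).symm
    rw [h3]
    unfold FF.A
    rw [Algebra.adjoin_range_eq_range_aeval]
    exact ⟨P, rfl⟩

theorem mem_OO (s : ℤ) (i : Fin (n + 2)) (u : T.L) :
    u ∈ T.OO s i ↔ ∃ a ∈ T.A i, u = T.x i ^ s * a := by
  constructor
  · intro hu
    unfold FF.OO at hu
    refine Submodule.span_induction ?_ ?_ ?_ ?_ hu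
    · exact fun v hv => hv
    · exact ⟨0, Subalgebra.zero_mem _, by rw [mul_zero]⟩
    · rintro _ _ _ _ ⟨a, ha, rfl⟩ ⟨b, hb, rfl⟩
      exact ⟨a + b, Subalgebra.add_mem _ ha hb, by ring⟩
    · rintro c _ _ ⟨a, ha, rfl⟩
      exact ⟨c • a, Subalgebra.smul_mem _ ha c, by rw [mul_smul_comm]⟩
  · intro h
    exact Submodule.subset_span h

/-- Normal form of the sections of `O(s)` on the chart `i`. -/
theorem mem_OO_iff (s : ℤ) (i : Fin (n + 2)) (u : T.L) :
    u ∈ T.OO s i ↔ ∃ (N e : ℕ) (P : HP K n), P.IsHomogeneous e ∧ (e : ℤ) = N + s ∧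
      u * T.x i ^ N = aeval T.x P := by
  have hx := T.x_ne i
  rw [mem_OO]
  constructor
  · rintro ⟨a, ha, rfl⟩
    obtain ⟨N, P, hP, h1⟩ := (mem_A_iff T i a).1 ha
    have hXi : ∀ m : ℕ, ((X i : HP K n) ^ m).IsHomogeneous m := fun m => by
      simpa using (isHomogeneous_X K i).pow m
    obtain ⟨m, rfl | rfl⟩ := s.eq_nat_or_neg
    · refine ⟨N, m + N, X i ^ m * P, (hXi m).mul hP, by push_cast; ring, ?_⟩
      rw [map_mul, map_pow, aeval_X, ← h1, zpow_natCast]
      ring
    · refine ⟨N + m, N, P, hP, by push_cast; ring, ?_⟩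
      rw [← h1, zpow_neg, zpow_natCast]
      field_simp
      ring
  · rintro ⟨N, e, P, hP, he, h1⟩
    refine ⟨aeval (fun l => T.x l / T.x i) P, ?_, ?_⟩
    · unfold FF.A
      rw [Algebra.adjoin_range_eq_range_aeval]
      exact ⟨P, rfl⟩
    · have h2 := aeval_div T hP hx
      have h3 : u = aeval T.x P / T.x i ^ N := by
        rw [← h1, mul_div_assoc, div_self (pow_ne_zero N hx), mul_one]
      have h4 : s = (e : ℤ) - N := by omega
      rw [h3, ← h2, h4, zpow_sub₀ hx, zpow_natCast, zpow_natCast]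
      field_simp

/-- Global sections of `O(s)`. -/
theorem h0o (hF : Nice d F) (hn : 1 ≤ n) {s : ℤ} {u : T.L} (h0 : u ∈ T.OO s 0) (h1 : u ∈ T.OO s 1) :
    (∃ (e : ℕ) (P : HP K n), (e : ℤ) = s ∧ P.IsHomogeneous e ∧ u = aeval T.x P) ∨ u = 0 := by
  obtain ⟨N, e, Q, hQ, he, hu⟩ := (mem_OO_iff T s 0 u).1 h0
  obtain ⟨M, e', Q', hQ', he', hu'⟩ := (mem_OO_iff T s 1 u).1 h1
  rw [T.x_zero, one_pow, mul_one] at hu
  have hX : ∀ (i : Fin (n + 2)) (m : ℕ), ((X i : HP K n) ^ m).IsHomogeneous m := fun i m => by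
    simpa using (isHomogeneous_X K i).pow m
  have h2 : (X 1 ^ M * Q - X 0 ^ N * Q' : HP K n).IsHomogeneous (M + e) := by
    refine IsHomogeneous.sub ((hX 1 M).mul hQ) ?_
    have h3 := (hX 0 N).mul hQ'
    have h4 : N + e' = M + e := by omega
    rwa [h4] at h3
  have h3 : F ∣ X 1 ^ M * Q - X 0 ^ N * Q' := by
    rw [← T.ker _ _ h2, map_sub, map_mul, map_mul, map_pow, map_pow, aeval_X, aeval_X, T.x_zero, one_pow,
      one_mul, ← hu, ← hu']
    ring
  rcases div_hom hF hn hQ h3 with ⟨P, hN, hP, h4⟩ | h4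
  · left
    refine ⟨e - N, P, by omega, hP, ?_⟩
    have h5 : (Q - X 0 ^ N * P : HP K n).IsHomogeneous e := by
      refine IsHomogeneous.sub hQ ?_
      have h6 := (hX 0 N).mul hP
      rwa [Nat.add_sub_cancel' hN] at h6
    have h6 := (T.ker _ _ h5).2 h4
    rw [map_sub, map_mul, map_pow, aeval_X, T.x_zero, one_pow, one_mul, sub_eq_zero] at h6
    rw [hu, h6]
  · right
    rw [hu, (T.ker _ _ hQ).2 h4]

/-- Forms are sections. -/
theorem form_mem_OO {e : ℕ} {P : HP K n} (hP : P.IsHomogeneous e) (i : Fin (n + 2)) :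
    aeval T.x P ∈ T.OO e i := by
  rw [mem_OO_iff]
  exact ⟨0, e, P, hP, by simp, by simp⟩

end FF

end Pool.Agent.H29.UG

namespace Pool.Agent.H47.UG.FF

variable {K : Type} [Field K] [CharZero K] {n d : ℕ} {F : HP K n} (T : FF d F) (hF : Nice d F)

include hF in
omit [CharZero K] in
/-- H0O -/
theorem H0_OO (hn : 1 ≤ n) (s : ℤ) (v : T.L) (hv : ∀ i, v ∈ T.OO s i) :
    (s < 0 → v = 0) ∧ (0 ≤ s → ∃ P : HP K n, P.IsHomogeneous s.toNat ∧ v = aeval T.x P) := by
  rcases Pool.Agent.H29.UG.h0o T hF hn (hv 0) (hv 1) with ⟨e, P, he, hP, h⟩ | h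
  · refine ⟨fun hs => absurd hs (by omega), fun _ => ⟨P, ?_, h⟩⟩
    have h1 : s.toNat = e := by omega
    rwa [h1]
  · exact ⟨fun _ => h, fun _ => ⟨0, isHomogeneous_zero _ _ _, by rw [h, map_zero]⟩⟩

end Pool.Agent.H47.UG.FF
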