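import Mathlib

/-!
# The leading part of the coefficients of a polynomial in power series
-/

set_option autoImplicit false

open MvPolynomial

namespace Pool.Agent.H29.UG

variable {R0 R σ : Type} [CommRing R0] [CommRing R] [Algebra R0 R]

/-- Constant terms. -/
noncomputable def y0 (y : σ → PowerSeries R) (i : σ) : R := PowerSeries.coeff 0 (y i)

/-- The algebra generated by the coefficients of degree `< s`. -/
noncomputable def low (R0 : Type) [CommRing R0] [Algebra R0 R] (y : σ → PowerSeries R) (s : ℕ) :
    Subalgebra R0 R :=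
  Algebra.adjoin R0 {v | ∃ (j : σ) (t : ℕ), t < s ∧ v = PowerSeries.coeff t (y j)}

theorem coeff_zero_aeval (y : σ → PowerSeries R) (G : MvPolynomial σ R0) :
    PowerSeries.coeff 0 (aeval y G) = aeval (y0 y) G := by
  induction G using MvPolynomial.induction_on with
  | C a =>
    rw [aeval_C, aeval_C, PowerSeries.algebraMap_apply, PowerSeries.coeff_C, if_pos rfl]
  | add p q hp hq => rw [map_add, map_add, map_add, hp, hq]
  | mul_X p i hp =>
    rw [map_mul, map_mul (aeval (y0 y)), aeval_X, aeval_X, ← hp]
    simp [PowerSeries.coeff_mul, y0]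

theorem coeff_lt_mem (y : σ → PowerSeries R) (s : ℕ) (G : MvPolynomial σ R0) :
    ∀ t < s, PowerSeries.coeff t (aeval y G) ∈ low R0 y s := by
  induction G using MvPolynomial.induction_on with
  | C a =>
    intro t _
    rw [aeval_C, PowerSeries.algebraMap_apply, PowerSeries.coeff_C]
    split_ifs
    · exact Subalgebra.algebraMap_mem _ _
    · exact Subalgebra.zero_mem _
  | add p q hp hq =>
    intro t ht
    rw [map_add, map_add]
    exact Subalgebra.add_mem _ (hp t ht) (hq t ht)
  | mul_X p i hp =>
    intro t ht
    rw [map_mul, aeval_X, PowerSeries.coeff_mul]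
    refine Subalgebra.sum_mem _ fun x hx => ?_
    have hx1 := Finset.HasAntidiagonal.mem_antidiagonal.1 hx
    exact Subalgebra.mul_mem _ (hp _ (by omega)) (Algebra.subset_adjoin ⟨i, x.2, by omega, rfl⟩)

theorem coeff_lead [Fintype σ] (y : σ → PowerSeries R) (s : ℕ) (hs : 1 ≤ s) (G : MvPolynomial σ R0) :
    PowerSeries.coeff s (aeval y G) - ∑ i, aeval (y0 y) (pderiv i G) * PowerSeries.coeff s (y i) ∈
      low R0 y s := by
  classical
  induction G using MvPolynomial.induction_on with
  | C a =>
    rw [aeval_C, PowerSeries.algebraMap_apply, PowerSeries.coeff_C, if_neg (by omega)]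
    simp only [pderiv_C, map_zero, zero_mul, Finset.sum_const_zero, sub_zero]
    exact Subalgebra.zero_mem _
  | add p q hp hq =>
    have h := Subalgebra.add_mem _ hp hq
    convert h using 1
    simp only [map_add, add_mul, Finset.sum_add_distrib]
    ring
  | mul_X p i hp =>
    obtain ⟨r, rfl⟩ : ∃ r, s = r + 1 := ⟨s - 1, by omega⟩
    rw [map_mul, aeval_X]
    have h1 : ∑ j, aeval (y0 y) (pderiv j (p * X i)) * PowerSeries.coeff (r + 1) (y j) =
        (∑ j, aeval (y0 y) (pderiv j p) * PowerSeries.coeff (r + 1) (y j)) * y0 y i +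
          aeval (y0 y) p * PowerSeries.coeff (r + 1) (y i) := by
      have h2 : ∀ j, aeval (y0 y) (pderiv j (p * X i)) * PowerSeries.coeff (r + 1) (y j) =
          aeval (y0 y) (pderiv j p) * PowerSeries.coeff (r + 1) (y j) * y0 y i +
            (if j = i then aeval (y0 y) p * PowerSeries.coeff (r + 1) (y j) else 0) := by
        intro j
        rw [pderiv_mul, map_add, map_mul, map_mul, aeval_X]
        by_cases h : j = i
        · subst h
          rw [pderiv_X_self, if_pos rfl, map_one]
          ring
        · rw [pderiv_X_of_ne (Ne.symm h), if_neg h, map_zero]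
          ring
      rw [Finset.sum_congr rfl fun j _ => h2 j, Finset.sum_add_distrib, Finset.sum_mul, Finset.sum_ite_eq',
        if_pos (Finset.mem_univ i)]
    have h3 : PowerSeries.coeff (r + 1) (aeval y p * y i) =
        PowerSeries.coeff (r + 1) (aeval y p) * y0 y i + aeval (y0 y) p * PowerSeries.coeff (r + 1) (y i) +
          ∑ t ∈ Finset.range r, PowerSeries.coeff (t + 1) (aeval y p) * PowerSeries.coeff (r - t) (y i) := by
      rw [PowerSeries.coeff_mul, Finset.Nat.sum_antidiagonal_eq_sum_range_succ
        (fun a b => PowerSeries.coeff a (aeval y p) * PowerSeries.coeff b (y i)) (r + 1), Finset.sum_range_succ,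
        Finset.sum_range_succ', coeff_zero_aeval]
      have h4 : ∀ t ∈ Finset.range r, PowerSeries.coeff (t + 1) (aeval y p) *
          PowerSeries.coeff (r + 1 - (t + 1)) (y i) =
          PowerSeries.coeff (t + 1) (aeval y p) * PowerSeries.coeff (r - t) (y i) := by
        intro t _
        rw [show r + 1 - (t + 1) = r - t by omega]
      rw [Finset.sum_congr rfl h4, Nat.sub_self, Nat.sub_zero]
      unfold y0
      ring
    rw [h1, h3]
    have h5 : ∑ t ∈ Finset.range r, PowerSeries.coeff (t + 1) (aeval y p) * PowerSeries.coeff (r - t) (y i) ∈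
        low R0 y (r + 1) := by
      refine Subalgebra.sum_mem _ fun t ht => ?_
      rw [Finset.mem_range] at ht
      exact Subalgebra.mul_mem _ (coeff_lt_mem y _ p _ (by omega)) (Algebra.subset_adjoin ⟨i, _, by omega, rfl⟩)
    have h6 : y0 y i ∈ low R0 y (r + 1) := Algebra.subset_adjoin ⟨i, 0, by omega, rfl⟩
    have h7 := Subalgebra.add_mem _ (Subalgebra.mul_mem _ hp h6) h5
    convert h7 using 1
    ring

/-- The same with the coefficients mapped to `R`. -/
theorem coeff_lead_map [Fintype σ] (y : σ → PowerSeries R) (s : ℕ) (hs : 1 ≤ s) (G : MvPolynomial σ R0) :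
    PowerSeries.coeff s (aeval y (map (algebraMap R0 R) G)) -
      ∑ i, eval (y0 y) (pderiv i (map (algebraMap R0 R) G)) * PowerSeries.coeff s (y i) ∈ low R0 y s := by
  have h := coeff_lead y s hs G
  have h1 : aeval y (map (algebraMap R0 R) G) = aeval y G := aeval_map_algebraMap _ _ _
  have h2 : ∀ i, eval (y0 y) (pderiv i (map (algebraMap R0 R) G)) = aeval (y0 y) (pderiv i G) := fun i => by
    rw [pderiv_map, eval_map, aeval_def]
  simp only [h1, h2]
  exact h

end Pool.Agent.H29.UG
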