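import Pool.Agent.H47.UG.Ch

/-!
# The generic form is smooth
-/

set_option autoImplicit false

open MvPolynomial

namespace Pool.Agent.H29.UG

open Pool.Agent.H47.UG

noncomputable section

/-- The generic form over the ring of the coefficients. -/
def genR (n d : ℕ) : MvPolynomial (Fin (n + 2)) (MvPolynomial ((Fin (n + 2)) →₀ ℕ) ℂ) :=
  ∑ a ∈ (Finset.finsuppAntidiag Finset.univ d : Finset (Fin (n + 2) →₀ ℕ)), monomial a (X a)

theorem map_genR (n d : ℕ) : map (algebraMap _ _) (genR n d) = genForm n d := by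
  unfold genR genForm
  rw [map_sum]
  exact Finset.sum_congr rfl fun a _ => map_monomial _ _ _

theorem genR_hom (n d : ℕ) : (genR n d).IsHomogeneous d := by
  unfold genR
  refine IsHomogeneous.sum _ _ _ fun a ha => ?_
  refine isHomogeneous_monomial _ ?_
  rw [Finset.mem_finsuppAntidiag] at ha
  rw [← ha.1, Finsupp.degree_eq_sum]

/-- The Fermat form. -/
def fermat (n d : ℕ) : MvPolynomial (Fin (n + 2)) ℂ := ∑ j, X j ^ d

theorem fermat_hom (n d : ℕ) : (fermat n d).IsHomogeneous d := by
  unfold fermat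
  refine IsHomogeneous.sum _ _ _ fun j _ => ?_
  simpa using (isHomogeneous_X ℂ j).pow d

/-- Specialisation of the coefficients. -/
theorem map_spec {n d : ℕ} {G : MvPolynomial (Fin (n + 2)) ℂ} (hG : G.IsHomogeneous d) :
    map (eval fun a => coeff a G) (genR n d) = G := by
  classical
  ext b
  unfold genR
  rw [map_sum, coeff_sum]
  by_cases hb : b.degree = d
  · rw [Finset.sum_eq_single b]
    · rw [map_monomial, coeff_monomial, if_pos rfl, eval_X]
    · intro a _ hab
      rw [map_monomial, coeff_monomial, if_neg hab]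
    · intro h
      exfalso
      apply h
      rw [Finset.mem_finsuppAntidiag]
      refine ⟨?_, by simp⟩
      rw [← hb, Finsupp.degree_eq_sum]
  · rw [Finset.sum_eq_zero]
    · symm
      exact hG.coeff_eq_zero hb
    · intro a ha
      rw [map_monomial, coeff_monomial, if_neg]
      rintro rfl
      apply hb
      rw [Finset.mem_finsuppAntidiag] at ha
      rw [← ha.1, Finsupp.degree_eq_sum]

theorem pderiv_fermat (n d : ℕ) (j : Fin (n + 2)) : pderiv j (fermat n d) = C (d : ℂ) * X j ^ (d - 1) := by
  classical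
  unfold fermat
  rw [map_sum, Finset.sum_eq_single j]
  · rw [pderiv_pow, pderiv_X_self, mul_one]
    simp
  · intro i _ hij
    rw [pderiv_pow, pderiv_X_of_ne hij, mul_zero]
  · intro h
    exact absurd (Finset.mem_univ j) h

theorem exists_big {n d e : ℕ} (he : (n + 2) * (d - 2) < e) (b : Fin (n + 2) →₀ ℕ) (hb : b.degree = e) :
    ∃ j, d - 1 ≤ b j := by
  by_contra h
  push Not at h
  have h1 : b.degree ≤ (n + 2) * (d - 2) := by
    rw [Finsupp.degree_eq_sum]
    calc ∑ i, b i ≤ ∑ _i : Fin (n + 2), (d - 2) := Finset.sum_le_sum fun i _ => by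
            have := h i
            omega
      _ = (n + 2) * (d - 2) := by simp
  omega

theorem gen_smooth {n d : ℕ} (hd : 2 ≤ d) : ∃ N : ℕ, ∀ i,
    (X i : HP (FractionRing (MvPolynomial ((Fin (n + 2)) →₀ ℕ) ℂ)) n) ^ N ∈
      Ideal.span (Set.range fun j => pderiv j (genForm n d)) := by
  classical
  set R := MvPolynomial ((Fin (n + 2)) →₀ ℕ) ℂ with hR
  set K := FractionRing R with hK
  set e : ℕ := (n + 2) * (d - 2) + 1 with he
  let I := {b : Fin (n + 2) →₀ ℕ // b ∈ (Finset.finsuppAntidiag Finset.univ e : Finset (Fin (n + 2) →₀ ℕ))}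
  have hI : ∀ b : Fin (n + 2) →₀ ℕ, b ∈ (Finset.finsuppAntidiag Finset.univ e : Finset (Fin (n + 2) →₀ ℕ)) ↔
      b.degree = e := by
    intro b
    rw [Finset.mem_finsuppAntidiag, Finsupp.degree_eq_sum]
    constructor
    · exact fun h => h.1
    · exact fun h => ⟨h, by simp⟩
  choose j hj using fun b : I => exists_big (n := n) (d := d) (e := e) (by omega) b.1 ((hI b.1).1 b.2)
  let P : I → MvPolynomial (Fin (n + 2)) R := fun b =>
    pderiv (j b) (genR n d) * monomial (b.1 - Finsupp.single (j b) (d - 1)) (C ((d : ℂ)⁻¹))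
  have hsub : ∀ b : I, Finsupp.single (j b) (d - 1) + (b.1 - Finsupp.single (j b) (d - 1)) = b.1 := by
    intro b
    refine add_tsub_cancel_of_le ?_
    rw [Finsupp.single_le_iff]
    exact hj b
  have hPhom : ∀ b, (P b).IsHomogeneous e := by
    intro b
    have h1 : (pderiv (j b) (genR n d)).IsHomogeneous (d - 1) := (genR_hom n d).pderiv
    have h2 : (monomial (b.1 - Finsupp.single (j b) (d - 1)) (C ((d : ℂ)⁻¹)) :
        MvPolynomial (Fin (n + 2)) R).IsHomogeneous (e - (d - 1)) := by
      refine isHomogeneous_monomial _ ?_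
      have h3 := congrArg Finsupp.degree (hsub b)
      rw [map_add, Finsupp.degree_single, (hI b.1).1 b.2] at h3
      omega
    have h3 := h1.mul h2
    have h4 : d - 1 + (e - (d - 1)) = e := by
      have h5 := congrArg Finsupp.degree (hsub b)
      rw [map_add, Finsupp.degree_single, (hI b.1).1 b.2] at h5
      omega
    rwa [h4] at h3
  let φ : R →+* ℂ := eval fun a => coeff a (fermat n d)
  have hd0 : (d : ℂ) ≠ 0 := by
    rw [Nat.cast_ne_zero]
    omega
  have hφP : ∀ b : I, map φ (P b) = monomial b.1 1 := by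
    intro b
    rw [map_mul, ← pderiv_map, map_spec (fermat_hom n d), pderiv_fermat, map_monomial]
    have h1 : φ (C ((d : ℂ)⁻¹)) = (d : ℂ)⁻¹ := eval_C _
    rw [h1, X_pow_eq_monomial, C_mul_monomial, monomial_mul, hsub, mul_one, mul_inv_cancel₀ hd0]
  let N : Matrix I I R := Matrix.of fun b' b => coeff b'.1 (P b)
  have hN : N.map φ = 1 := by
    ext b' b
    change φ (coeff b'.1 (P b)) = _
    rw [← coeff_map, hφP, coeff_monomial, Matrix.one_apply]
    by_cases h : b' = b
    · rw [if_pos h, if_pos (congrArg Subtype.val h).symm]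
    · rw [if_neg h, if_neg fun h2 => h (Subtype.ext h2.symm)]
  have hdet : N.det ≠ 0 := by
    intro h0
    have h1 := RingHom.map_det φ N
    rw [h0, map_zero, RingHom.mapMatrix_apply, hN, Matrix.det_one] at h1
    exact zero_ne_one h1
  let NK : Matrix I I K := N.map (algebraMap R K)
  have hdetK : IsUnit NK.det := by
    have h1 := RingHom.map_det (algebraMap R K) N
    rw [RingHom.mapMatrix_apply] at h1
    rw [← h1, isUnit_iff_ne_zero]
    exact fun h0 => hdet ((IsFractionRing.injective R K) (by rw [h0, map_zero]))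
  refine ⟨e, fun i => ?_⟩
  let b0 : I := ⟨Finsupp.single i e, (hI _).2 (Finsupp.degree_single _ _)⟩
  have hkey : (X i : HP K n) ^ e = ∑ b : I, C (NK⁻¹ b b0) * map (algebraMap R K) (P b) := by
    ext b'
    rw [coeff_sum, X_pow_eq_monomial, coeff_monomial]
    by_cases hb : b'.degree = e
    · have h1 : ∀ b : I, coeff b' (C (NK⁻¹ b b0) * map (algebraMap R K) (P b)) =
          NK ⟨b', (hI _).2 hb⟩ b * NK⁻¹ b b0 := by
        intro b
        rw [coeff_C_mul, coeff_map, mul_comm]
        rfl
      rw [Finset.sum_congr rfl fun b _ => h1 b, ← Matrix.mul_apply, Matrix.mul_nonsing_inv _ hdetK,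
        Matrix.one_apply]
      by_cases h : Finsupp.single i e = b'
      · rw [if_pos h, if_pos (Subtype.ext h.symm)]
      · rw [if_neg h, if_neg fun h2 => h (congrArg Subtype.val h2).symm]
    · rw [if_neg, Finset.sum_eq_zero]
      · intro b _
        rw [coeff_C_mul, coeff_map, (hPhom b).coeff_eq_zero hb, map_zero, mul_zero]
      · rintro rfl
        exact hb (Finsupp.degree_single _ _)
  rw [hkey]
  refine Ideal.sum_mem _ fun b _ => Ideal.mul_mem_left _ _ ?_
  rw [map_mul, ← pderiv_map, map_genR]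
  exact Ideal.mul_mem_right _ _ (Ideal.subset_span ⟨j b, rfl⟩)

end

end Pool.Agent.H29.UG
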